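import Pool.Agent.H70.RZT.S
import Pool.Agent.H91.T1.EXDA

/-!
# RZT: EXDTN (existence of the data, with `T` in a given infinite set)
-/

set_option autoImplicit false

namespace Pool.RZT

open Polynomial Matrix NumberField IsDedekindDomain Pool.HYP Pool.TOW Pool.AVS Pool.T1 Pool.NF

open Exd91 in
/-- **EXDTN**. -/
theorem exdtn (hPRZ : PRZStmt) : EXDTNStmt := by
  classical
  intro K _ _ Q hex T' hT' k b
  have hfq : ∀ I : Ideal (𝓞 K), I ≠ ⊥ → Finite (𝓞 K ⧸ I) :=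
    fun I hI => Ideal.finiteQuotientOfFreeOfNeBot I hI
  have h2 : ∀ P : HeightOneSpectrum (𝓞 K), ∃ γ : (𝓞 K)[X], OkP 2 P.asIdeal γ :=
    fun P => exLiftP hfq 2 (by norm_num) P
  have h3 : ∀ P : HeightOneSpectrum (𝓞 K), ∃ γ : (𝓞 K)[X], OkP 3 P.asIdeal γ :=
    fun P => exLiftP hfq 3 (by norm_num) P
  choose γ hγ using h2
  choose ρ hρ using h3
  have hsm : {P : HeightOneSpectrum (𝓞 K) | Nm P ≤ b}.Finite := by
    obtain ⟨x₀, hx₀⟩ := hPRZ K 1 one_pos
    refine (hx₀ (max x₀ b) (le_max_left _ _)).1.subset fun P hP => ?_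
    have h4 : Nm P ≤ b := hP
    have h5 : (Ni P.asIdeal : ℝ) ≤ b := by
      have : Ni P.asIdeal = Nm P := rfl
      rw [this]
      exact_mod_cast h4
    exact h5.trans (le_max_right _ _)
  have h4 : ∀ n : ℕ, ∃ T : Finset (HeightOneSpectrum (𝓞 K)), T.card = n ∧
      ∀ P ∈ T, (b < Nm P ∧ P ∈ Q) ∧ P ∉ T' := by
    intro n
    induction n with
    | zero => exact ⟨∅, Finset.card_empty, fun P hP => absurd hP (Finset.notMem_empty P)⟩
    | succ n ih =>
      obtain ⟨T, hTc, hT⟩ := ih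
      obtain ⟨P, hPQ, hP⟩ := hex (T ∪ T' ∪ hsm.toFinset)
      simp only [Finset.mem_union, Set.Finite.mem_toFinset, Set.mem_ofPred_eq, not_or,
        not_le] at hP
      refine ⟨insert P T, ?_, ?_⟩
      · rw [Finset.card_insert_of_notMem hP.1.1, hTc]
      · intro P' hP'
        rw [Finset.mem_insert] at hP'
        rcases hP' with h | h
        · rw [h]; exact ⟨⟨hP.2, hPQ⟩, hP.1.2⟩
        · exact hT P' h
  obtain ⟨T, hTc, hT⟩ := h4 k
  refine ⟨⟨T, T', fun _ => 0, γ, ρ⟩, ⟨?_, fun P _ => hγ P, fun P _ => hρ P, hT'⟩, rfl, hTc,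
    fun P hP => (hT P hP).1⟩
  exact Finset.disjoint_left.2 fun P hP => (hT P hP).2

end Pool.RZT
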